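import Pool.Agent.K1H72.OP.Asm
import Pool.Agent.K1H63.OP.GF1
import Pool.Agent.K1H38.OP.GF2
import Pool.Agent.K1H38.OP.AN
import Pool.Agent.K1H97.OP.CO
import Pool.Agent.K1H97.OP.FAC
import Pool.Agent.K1H8.OP.Fin
import Pool.Agent.K1H92.OP.Jtp
import Pool.Agent.K1H61.OP.LP
import Pool.Agent.K1H61.OP.R0
import Pool.Agent.K1H61.OP.R0S
import Pool.Agent.K1H59.OP.Mod
import Pool.Agent.K1H16.OP.DF
import Pool.Agent.K1H7.OP.Theta
import Pool.Agent.K1H66.OP.Tn
import Pool.Agent.K1H66.OP.Int

/-!
# Parity bias of the missing integers of overpartitions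

For every `n > 27` more overpartitions of `n` have an even number of missing integers than an odd
number. Proof: explicit circle method for `n > 12500`, kernel computation for `27 < n ≤ 12500`.
-/

namespace Pool.Agent.Results.MP_b2a904_nt.ParityBias

/-- An overpartition of `n`: a partition `p` of `n` together with the set of those part sizes of
`p` whose first occurrence carries an overline. -/
abbrev Overpartition (n : ℕ) : Type :=
  Σ p : n.Partition, {S : Finset ℕ // S ∈ p.parts.toFinset.powerset}

/-- The number of missing integers of an overpartition: the positive integers strictly smaller than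
its largest part that are not sizes of parts. -/
def missingCount {n : ℕ} (π : Overpartition n) : ℕ :=
  ((Finset.Ico 1 π.1.parts.sup).filter (fun m => m ∉ π.1.parts)).card

/-- The number of overpartitions of `n` with an even number of missing integers. -/
def evenCount (n : ℕ) : ℕ :=
  (Finset.univ.filter (fun π : Overpartition n => Even (missingCount π))).card

/-- The number of overpartitions of `n` with an odd number of missing integers. -/
def oddCount (n : ℕ) : ℕ :=
  (Finset.univ.filter (fun π : Overpartition n => Odd (missingCount π))).card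

theorem gf : K1H72.OP.S_GF := fun n N h =>
  (K1H63.OP.t_GF1 n N h).trans (K1H38.OP.t_GF2 n N h)

/-- For every `n > 27` the number of overpartitions of `n` with an odd number of missing integers is
smaller than the number of those with an even number of missing integers. -/
theorem result : ∀ n : ℕ, 27 < n → oddCount n < evenCount n := by
  have h := K1H72.OP.goal (K1H38.OP.t_AN gf) (K1H97.OP.t_CO (K1H38.OP.t_AN gf))
    (K1H8.OP.t_FIN gf K1H38.OP.t_BD) (K1H97.OP.t_FAC K1H92.OP.t_JTP)
    (K1H72.OP.t_R0L K1H72.OP.t_LP) (K1H72.OP.t_R0S K1H72.OP.t_LP)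
    K1H59.OP.t_MOD K1H59.OP.t_EP (K1H59.OP.t_DN K1H59.OP.t_MOD K1H59.OP.t_EP)
    (K1H16.OP.t_DF K1H72.OP.t_LP) (K1H7.OP.t_TT K1H7.OP.t_TP) (K1H7.OP.t_TM K1H7.OP.t_TP)
    (K1H66.OP.t_TN K1H7.OP.t_TP) K1H66.OP.t_INT
  exact h

end Pool.Agent.Results.MP_b2a904_nt.ParityBias
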